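import Pool.Agent.Lib.GapSieve.Crt

/-!
# Counting integers in prescribed residue classes (Chinese remainder theorem)
-/

set_option autoImplicit false

namespace Pool.Agent.Lib.MP_7d0362_nt

open Finset

open scoped Classical in
/-- The number of residue classes modulo `p` in which `H p` holds. -/
noncomputable def rho (H : ℕ → ℤ → Prop) (p : ℕ) : ℕ :=
  ((range p).filter (fun r : ℕ => H p (r : ℤ))).card

lemma per_sum (f : ℕ → ℝ) (d : ℕ) (hd : 0 < d) (hper : ∀ n, f (n + d) = f n)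
    (h0 : ∀ n, 0 ≤ f n) (M : ℕ) :
    |∑ n ∈ range M, f n - (M : ℝ) * ((∑ n ∈ range d, f n) / d)| ≤ ∑ n ∈ range d, f n := by
  set F := ∑ n ∈ range d, f n with hF
  have hF0 : 0 ≤ F := sum_nonneg fun n _ => h0 n
  have hd' : (0 : ℝ) < d := by exact_mod_cast hd
  induction M using Nat.strong_induction_on with
  | _ M ih =>
    by_cases hM : M < d
    · have h1 : 0 ≤ ∑ n ∈ range M, f n := sum_nonneg fun n _ => h0 n
      have h2 : ∑ n ∈ range M, f n ≤ F :=
        sum_le_sum_of_subset_of_nonneg (range_subset_range.2 hM.le) fun n _ _ => h0 n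
      have h3 : 0 ≤ (M : ℝ) * (F / d) := by positivity
      have h4 : (M : ℝ) * (F / d) ≤ F := by
        rw [mul_div_assoc', div_le_iff₀ hd', mul_comm]
        exact mul_le_mul_of_nonneg_left (by exact_mod_cast hM.le) hF0
      rw [abs_le]; constructor <;> linarith
    · obtain ⟨K, rfl⟩ : ∃ K, M = d + K := ⟨M - d, by omega⟩
      rw [sum_range_add, ← hF]
      have h1 : ∑ x ∈ range K, f (d + x) = ∑ x ∈ range K, f x :=
        sum_congr rfl fun x _ => by rw [add_comm]; exact hper x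
      rw [h1]
      have h2 := ih K (by omega)
      have h3 : F + ∑ x ∈ range K, f x - ((d + K : ℕ) : ℝ) * (F / d) =
          ∑ x ∈ range K, f x - (K : ℝ) * (F / d) := by
        push_cast; field_simp; ring
      rw [h3]; exact h2

open scoped Classical in
/-- The number of `1 ≤ x ≤ n` with `H p x` for all `p ∈ S` is `n ∏ ρ(p) / p + O(∏ ρ(p))`. -/
theorem count_crt (S : Finset ℕ) (hS : ∀ p ∈ S, p.Prime) (H : ℕ → ℤ → Prop)
    (hH : ∀ p ∈ S, ∀ t : ℤ, H p (t + p) ↔ H p t) (n : ℕ) :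
    |(((Icc 1 n).filter (fun x : ℕ => ∀ p ∈ S, H p (x : ℤ))).card : ℝ) -
      n * ∏ p ∈ S, ((rho H p : ℕ) : ℝ) / (p : ℝ)| ≤ ∏ p ∈ S, ((rho H p : ℕ) : ℝ) := by
  have hpos : ∀ p ∈ S, 0 < p := fun p hp => (hS p hp).pos
  let φ : ℕ → ℕ → ℝ := fun p t => if H p (((t + 1 : ℕ) : ℤ)) then 1 else 0
  have hφ : ∀ p ∈ S, ∀ t, φ p (t + p) = φ p t := by
    intro p hp t
    have h1 : H p (((t + p + 1 : ℕ) : ℤ)) ↔ H p (((t + 1 : ℕ) : ℤ)) := by
      have h2 := hH p hp ((t + 1 : ℕ) : ℤ)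
      rwa [show (((t + 1 : ℕ) : ℤ) + (p : ℤ)) = ((t + p + 1 : ℕ) : ℤ) by push_cast; ring] at h2
    show (if H p (((t + p + 1 : ℕ) : ℤ)) then (1 : ℝ) else 0) = if H p (((t + 1 : ℕ) : ℤ)) then 1 else 0
    by_cases h3 : H p (((t + 1 : ℕ) : ℤ))
    · rw [if_pos h3, if_pos (h1.2 h3)]
    · rw [if_neg h3, if_neg (fun h4 => h3 (h1.1 h4))]
  have hφ0 : ∀ p t, 0 ≤ φ p t := by
    intro p t
    show (0 : ℝ) ≤ if H p (((t + 1 : ℕ) : ℤ)) then 1 else 0
    split_ifs <;> norm_num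
  have hmul : ∀ p ∈ S, ∀ k t, φ p (t + p * k) = φ p t := by
    intro p hp k t
    induction k with
    | zero => simp
    | succ k ih => rw [Nat.mul_succ, ← add_assoc, hφ p hp, ih]
  have h1 := Pool.Agent.GapSieve.crt_prod S hpos
    (fun q hq q' hq' hne => (Nat.coprime_primes (hS q hq) (hS q' hq')).2 hne) φ hφ
  have hloc : ∀ p ∈ S, ∑ a ∈ range p, φ p a = ((rho H p : ℕ) : ℝ) := by
    intro p hp
    have hp0 : 0 < p := hpos p hp
    have e1 : ∑ a ∈ range p, φ p a =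
        ∑ a ∈ range p, (fun a : ℕ => if H p ((a : ℕ) : ℤ) then (1 : ℝ) else 0) (a + 1) := rfl
    have e2 := sum_range_succ (fun a : ℕ => if H p ((a : ℕ) : ℤ) then (1 : ℝ) else 0) p
    have e3 := sum_range_succ' (fun a : ℕ => if H p ((a : ℕ) : ℤ) then (1 : ℝ) else 0) p
    have e4 : (if H p ((p : ℕ) : ℤ) then (1 : ℝ) else 0) = if H p (((0 : ℕ) : ℤ)) then 1 else 0 := by
      have h2 := hH p hp 0
      rw [zero_add] at h2
      by_cases h3 : H p (0 : ℤ)
      · rw [if_pos (h2.2 h3), if_pos (by simpa using h3)]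
      · rw [if_neg (fun h4 => h3 (h2.1 h4)), if_neg (by simpa using h3)]
    have e5 : ∑ a ∈ range p, (if H p ((a : ℕ) : ℤ) then (1 : ℝ) else 0) = ((rho H p : ℕ) : ℝ) := by
      rw [sum_boole]
      rfl
    rw [e1]
    rw [← e5]
    have e6 := e2.symm.trans e3
    rw [e4] at e6
    linarith
  rw [prod_congr rfl hloc] at h1
  have hd : 0 < ∏ p ∈ S, p := prod_pos hpos
  have h3 := per_sum (fun t => ∏ p ∈ S, φ p t) (∏ p ∈ S, p) hd
    (fun t => prod_congr rfl fun p hp => by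
      obtain ⟨k, hk⟩ : p ∣ ∏ p ∈ S, p := dvd_prod_of_mem _ hp
      rw [hk]
      exact hmul p hp k t)
    (fun t => prod_nonneg fun p _ => hφ0 p t) n
  rw [h1] at h3
  have h4 : (((Icc 1 n).filter (fun x : ℕ => ∀ p ∈ S, H p (x : ℤ))).card : ℝ) =
      ∑ t ∈ range n, ∏ p ∈ S, φ p t := by
    have e1 : ∀ t, ∏ p ∈ S, φ p t = if (∀ p ∈ S, H p (((t + 1 : ℕ) : ℤ))) then 1 else 0 := by
      intro t
      by_cases h5 : ∀ p ∈ S, H p (((t + 1 : ℕ) : ℤ))
      · rw [if_pos h5]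
        exact prod_eq_one fun p hp => if_pos (h5 p hp)
      · rw [if_neg h5]
        push Not at h5
        obtain ⟨p, hp, h6⟩ := h5
        exact prod_eq_zero hp (if_neg h6)
    rw [sum_congr rfl fun t _ => e1 t, sum_boole]
    congr 1
    refine card_bij' (fun x _ => x - 1) (fun t _ => t + 1) ?_ ?_ ?_ ?_
    · intro x hx
      rw [mem_filter, mem_Icc] at hx
      rw [mem_filter, mem_range]
      refine ⟨by omega, ?_⟩
      rw [Nat.sub_add_cancel hx.1.1]
      exact hx.2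
    · intro t ht
      rw [mem_filter, mem_range] at ht
      rw [mem_filter, mem_Icc]
      exact ⟨by omega, ht.2⟩
    · intro x hx
      rw [mem_filter, mem_Icc] at hx
      omega
    · intro t _
      rfl
  have h5 : ∏ p ∈ S, ((rho H p : ℕ) : ℝ) / (p : ℝ) =
      (∏ p ∈ S, ((rho H p : ℕ) : ℝ)) / ((∏ p ∈ S, p : ℕ) : ℝ) := by
    rw [prod_div_distrib]
    push_cast
    rfl
  rw [h4, h5]
  exact h3

end Pool.Agent.Lib.MP_7d0362_nt
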